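import Mathlib

/-! Flip graph of 2-subsets, rainbow cycles. -/

namespace Pool.Agent.FB

/-- `C_{n,2}`: the 2-element subsets of an `n`-element set. -/
abbrev Pr (n : ℕ) : Type := {s : Finset (Fin n) // s.card = 2}

/-- The flip graph `G_{n,2}`: two pairs `A`, `B` are adjacent when `|A \ B| = |B \ A| = 1`. -/
def flipGraph (n : ℕ) : SimpleGraph (Pr n) where
  Adj A B := (A.1 \ B.1).card = 1 ∧ (B.1 \ A.1).card = 1
  symm := ⟨fun _ _ h => ⟨h.2, h.1⟩⟩
  loopless := ⟨fun A h => by simp at h⟩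

instance (n : ℕ) : DecidableRel (flipGraph n).Adj := fun A B =>
  inferInstanceAs (Decidable ((A.1 \ B.1).card = 1 ∧ (B.1 \ A.1).card = 1))

/-- The colour of the edge `{A, B}`: the symmetric difference of `A` and `B`. -/
def colour (n : ℕ) : Sym2 (Pr n) → Finset (Fin n) :=
  Sym2.lift ⟨fun A B => symmDiff A.1 B.1, fun A B => symmDiff_comm A.1 B.1⟩

/-- A closed walk of `G_{n,2}` is a rainbow cycle if it is a (simple) cycle and each of the
transpositions (2-element subsets) occurs as the colour of exactly one of its edges. -/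
def IsRainbowCycle {n : ℕ} {v : Pr n} (w : (flipGraph n).Walk v v) : Prop :=
  w.IsCycle ∧ ∀ t : Pr n, (w.edges.map (colour n)).count t.1 = 1

/-- `k` pairwise edge-disjoint rainbow cycles exist in `G_{n,2}`. -/
def HasDisjointRainbow (n k : ℕ) : Prop :=
  ∃ (v : Fin k → Pr n) (w : ∀ i, (flipGraph n).Walk (v i) (v i)),
    (∀ i, IsRainbowCycle (w i)) ∧
    ∀ i j, i ≠ j → ∀ e, e ∈ (w i).edges → e ∉ (w j).edges

/-- The edge set of `G_{n,2}` can be partitioned into `n - 2` pairwise edge-disjoint rainbow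
cycles, each of them passing through all vertices. -/
def HasRainbowFactorization (n : ℕ) : Prop :=
  ∃ (v : Fin (n - 2) → Pr n) (w : ∀ i, (flipGraph n).Walk (v i) (v i)),
    (∀ i, IsRainbowCycle (w i) ∧ ∀ A : Pr n, A ∈ (w i).support) ∧
    (∀ i j, i ≠ j → ∀ e, e ∈ (w i).edges → e ∉ (w j).edges) ∧
    ∀ e ∈ (flipGraph n).edgeSet, ∃ i, e ∈ (w i).edges

end Pool.Agent.FB
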