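import Pool.Agent.Hhelper34.FB.Defs
import Pool.Agent.Hhelper34.FB.Search

namespace Pool.Agent.FB

/-- mask of a finset -/
def encF (s : Finset (Fin 5)) : ℕ := ∑ x ∈ s, 2 ^ x.val

/-- mask of a pair -/
def enc (A : Pr 5) : ℕ := encF A.1

theorem enc_mem : ∀ A : Pr 5, enc A ∈ Vs := by decide +kernel

theorem enc_inj : ∀ A B : Pr 5, enc A = enc B → A = B := by decide +kernel

theorem enc_lt : ∀ A : Pr 5, enc A < 32 := by decide +kernel

theorem enc_xor : ∀ A B : Pr 5, encF (symmDiff A.1 B.1) = enc A ^^^ enc B := by decide +kernel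

theorem symm_card {A B : Pr 5} (h : (flipGraph 5).Adj A B) : (symmDiff A.1 B.1).card = 2 := by
  have h1 : symmDiff A.1 B.1 = (A.1 \ B.1) ∪ (B.1 \ A.1) := rfl
  rw [h1, Finset.card_union_of_disjoint disjoint_sdiff_sdiff, h.1, h.2]

theorem code_inj {a b c d : ℕ} (ha : a < 32) (hb : b < 32) (hc : c < 32) (hd : d < 32)
    (h : code a b = code c d) : (a = c ∧ b = d) ∨ (a = d ∧ b = c) := by
  unfold code at h
  split_ifs at h <;> omega

theorem testBit_emask (c : ℕ) : ∀ (a : ℕ) (l : List ℕ), (emask a l).testBit c = true →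
    ∃ x y, List.Sublist [x, y] (a :: l) ∧ c = code x y ∧ (x, y) ∈ (a :: l).zip l := by
  intro a l
  induction l generalizing a with
  | nil => intro h; simp [emask] at h
  | cons b l ih =>
    intro h
    simp only [emask, Nat.testBit_or, Bool.or_eq_true] at h
    rcases h with h | h
    · have h2 : c = code a b := by
        rw [Nat.testBit_two_pow] at h
        simpa using (of_decide_eq_true h).symm
      exact ⟨a, b, by simp, h2, by simp⟩
    · obtain ⟨x, y, h1, h2, h3⟩ := ih b h
      refine ⟨x, y, List.Sublist.cons _ h1, h2, ?_⟩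
      simp only [List.zip_cons_cons, List.mem_cons]
      exact Or.inr h3

theorem emask_testBit : ∀ (a : ℕ) (l : List ℕ) (x y : ℕ), (x, y) ∈ (a :: l).zip l →
    (emask a l).testBit (code x y) = true := by
  intro a l
  induction l generalizing a with
  | nil => intro x y h; simp at h
  | cons b l ih =>
    intro x y h
    simp only [List.zip_cons_cons, List.mem_cons, Prod.mk.injEq] at h
    simp only [emask, Nat.testBit_or, Bool.or_eq_true]
    rcases h with ⟨rfl, rfl⟩ | h
    · left
      rw [Nat.testBit_two_pow]; simp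
    · right; exact ih b x y h

/-- tail of the list of masks of a walk -/
def wl {u v : Pr 5} (w : (flipGraph 5).Walk u v) : List ℕ := w.support.tail.map enc

theorem wl_cons {u v x : Pr 5} (h : (flipGraph 5).Adj u v) (w : (flipGraph 5).Walk v x) :
    wl (SimpleGraph.Walk.cons h w) = enc v :: wl w := by
  unfold wl
  rw [SimpleGraph.Walk.support_cons, List.tail_cons]
  cases w with
  | nil => simp
  | cons h' w' => simp

theorem cols_wl {u v : Pr 5} (w : (flipGraph 5).Walk u v) :
    cols (enc u) (wl w) = (w.edges.map (colour 5)).map encF := by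
  induction w with
  | nil => rfl
  | @cons u v x h w ih =>
    rw [wl_cons]
    simp only [cols, SimpleGraph.Walk.edges_cons, List.map_cons, ih]
    rw [← enc_xor]
    rfl

theorem zip_wl {u v : Pr 5} (w : (flipGraph 5).Walk u v) {x y : ℕ}
    (h : (x, y) ∈ (enc u :: wl w).zip (wl w)) :
    ∃ A B : Pr 5, x = enc A ∧ y = enc B ∧ s(A, B) ∈ w.edges := by
  induction w with
  | nil => simp [wl] at h
  | @cons u v z h' w ih =>
    rw [wl_cons] at h
    simp only [List.zip_cons_cons, List.mem_cons, Prod.mk.injEq] at h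
    rcases h with ⟨rfl, rfl⟩ | h
    · exact ⟨u, v, rfl, rfl, by simp⟩
    · obtain ⟨A, B, h1, h2, h3⟩ := ih h
      exact ⟨A, B, h1, h2, by simp [h3]⟩

/-- edge mask of a walk -/
def wmask {u v : Pr 5} (w : (flipGraph 5).Walk u v) : ℕ := emask (enc u) (wl w)

theorem wmask_disj {u v u' v' : Pr 5} (w : (flipGraph 5).Walk u v) (w' : (flipGraph 5).Walk u' v')
    (h : ∀ e, e ∈ w.edges → e ∉ w'.edges) : wmask w &&& wmask w' = 0 := by
  apply Nat.eq_of_testBit_eq
  intro c
  rw [Nat.testBit_and, Nat.zero_testBit]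
  by_contra hcon
  simp only [Bool.and_eq_false_iff, not_or, Bool.not_eq_false] at hcon
  obtain ⟨x, y, -, h1, h2⟩ := testBit_emask c _ _ hcon.1
  obtain ⟨x', y', -, h1', h2'⟩ := testBit_emask c _ _ hcon.2
  obtain ⟨A, B, rfl, rfl, hAB⟩ := zip_wl w h2
  obtain ⟨A', B', rfl, rfl, hAB'⟩ := zip_wl w' h2'
  rcases code_inj (enc_lt A) (enc_lt B) (enc_lt A') (enc_lt B') (h1.symm.trans h1') with
    ⟨e1, e2⟩ | ⟨e1, e2⟩
  · have := enc_inj _ _ e1
    have := enc_inj _ _ e2
    subst_vars
    exact h _ hAB hAB'
  · have := enc_inj _ _ e1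
    have := enc_inj _ _ e2
    subst_vars
    rw [Sym2.eq_swap] at hAB'
    exact h _ hAB hAB'

theorem encF_inj2 : ∀ s t : Pr 5, encF s.1 = encF t.1 → s.1 = t.1 := fun s t h => by
  rw [enc_inj s t h]

theorem edge_colour_card {u v : Pr 5} (w : (flipGraph 5).Walk u v) :
    ∀ c ∈ w.edges.map (colour 5), c.card = 2 := by
  intro c hc
  obtain ⟨e, he, rfl⟩ := List.mem_map.mp hc
  have h1 := w.edges_subset_edgeSet he
  revert h1
  refine Sym2.ind (fun A B h1 => ?_) e
  exact symm_card h1

theorem rainbow_nodup {v : Pr 5} (w : (flipGraph 5).Walk v v) (h : IsRainbowCycle w) :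
    (w.edges.map (colour 5)).Nodup := by
  rw [List.nodup_iff_count_le_one]
  intro a
  by_cases ha : a.card = 2
  · exact (h.2 ⟨a, ha⟩).le
  · rw [List.count_eq_zero_of_not_mem]
    · omega
    · intro hm
      exact ha (edge_colour_card w a hm)

theorem card_Pr5 : Fintype.card (Pr 5) = 10 := by decide +kernel

theorem rainbow_length {v : Pr 5} (w : (flipGraph 5).Walk v v) (h : IsRainbowCycle w) :
    w.length = 10 := by
  have hp : (w.edges.map (colour 5)).Perm (((Finset.univ : Finset (Pr 5)).toList).map (·.1)) := by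
    rw [List.perm_iff_count]
    intro a
    by_cases ha : a.card = 2
    · rw [h.2 ⟨a, ha⟩]
      symm
      apply List.count_eq_one_of_mem
      · exact (Finset.nodup_toList _).map Subtype.val_injective
      · exact List.mem_map.mpr ⟨⟨a, ha⟩, by simp, rfl⟩
    · rw [List.count_eq_zero_of_not_mem, List.count_eq_zero_of_not_mem]
      · intro hm
        obtain ⟨b, -, rfl⟩ := List.mem_map.mp hm
        exact ha b.2
      · intro hm
        exact ha (edge_colour_card w a hm)
  have h1 := hp.length_eq
  rw [List.length_map, List.length_map, Finset.length_toList, Finset.card_univ, card_Pr5,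
    SimpleGraph.Walk.length_edges] at h1
  exact h1

theorem rainbow_mask {v : Pr 5} (w : (flipGraph 5).Walk v v) (h : IsRainbowCycle w) :
    wmask w ∈ masks24 := by
  have hlen := rainbow_length w h
  have hnd : w.support.tail.Nodup := h.1.support_nodup
  have hne : wl w ≠ [] := by
    intro h0
    have := congrArg List.length h0
    unfold wl at this
    rw [List.length_map, List.length_tail, SimpleGraph.Walk.length_support, hlen] at this
    simp at this
  have hlast : (wl w).getLast hne = enc v := by
    unfold wl at hne ⊢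
    rw [List.getLast_map]
    congr 1
    rw [List.getLast_tail, SimpleGraph.Walk.getLast_support]
  have hsplit : wl w = (wl w).dropLast ++ [enc v] := by
    rw [← hlast]
    exact (List.dropLast_append_getLast hne).symm
  have hwnd : (wl w).Nodup := by
    unfold wl
    exact hnd.map fun a b hab => enc_inj a b hab
  have hwnd2 := hwnd
  rw [hsplit, List.nodup_append] at hwnd2
  have hcols : (cols (enc v) (wl w)).Nodup := by
    rw [cols_wl]
    refine List.Nodup.map_on ?_ (rainbow_nodup w h)
    intro x hx y hy hxy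
    exact encF_inj2 ⟨x, edge_colour_card w x hx⟩ ⟨y, edge_colour_card w y hy⟩ hxy
  have hcolm : ∀ c ∈ cols (enc v) (wl w), c ∈ Vs := by
    rw [cols_wl]
    intro c hc
    obtain ⟨x, hx, rfl⟩ := List.mem_map.mp hc
    exact enc_mem ⟨x, edge_colour_card w x hx⟩
  have hmem : wl w ∈ paths (enc v) 9 (enc v) (Vs.erase (enc v)) Vs := by
    rw [hsplit]
    refine mem_paths (enc v) 9 (enc v) _ _ _ ?_ hwnd2.1 ?_ ?_ ?_
    · unfold wl
      rw [List.length_dropLast, List.length_map, List.length_tail,
        SimpleGraph.Walk.length_support, hlen]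
    · intro u hu
      have h1 : u ≠ enc v := by
        intro h2
        exact hwnd2.2.2 u hu (enc v) (by simp) h2
      refine (List.mem_erase_of_ne h1).mpr ?_
      have h3 : u ∈ wl w := List.mem_of_mem_dropLast hu
      unfold wl at h3
      obtain ⟨A, -, rfl⟩ := List.mem_map.mp h3
      exact enc_mem A
    · rw [← hsplit]; exact hcols
    · rw [← hsplit]; exact hcolm
  have hall : wmask w ∈ allMasks := by
    unfold allMasks
    rw [List.mem_flatMap]
    exact ⟨enc v, enc_mem v, List.mem_map.mpr ⟨wl w, hmem, rfl⟩⟩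
  have := List.all_eq_true.mp allMasks_sub _ hall
  simpa using this

/-- There are no three pairwise edge-disjoint rainbow cycles in `G_{5,2}`. -/
theorem five_fails : ¬ HasDisjointRainbow 5 3 := by
  rintro ⟨v, w, hr, hd⟩
  have h0 := rainbow_mask (w 0) (hr 0)
  have h1 := rainbow_mask (w 1) (hr 1)
  have h2 := rainbow_mask (w 2) (hr 2)
  have d01 := wmask_disj (w 0) (w 1) (hd 0 1 (by decide))
  have d02 := wmask_disj (w 0) (w 2) (hd 0 2 (by decide))
  have d12 := wmask_disj (w 1) (w 2) (hd 1 2 (by decide))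
  have k0 := List.all_eq_true.mp no_triple _ h0
  have k1 := List.all_eq_true.mp k0 _ h1
  rw [if_pos d01] at k1
  have k2 := List.all_eq_true.mp k1 _ h2
  rw [d02, d12] at k2
  simp at k2

end Pool.Agent.FB
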