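import Pool.Agent.Hhelper34.FB.Defs

namespace Pool.Agent.FB

/-- the five permuted copies: rotation of `0..4`, fixing `5` and `6` -/
def rot (k : Fin 5) (x : Fin 7) : Fin 7 :=
  if h : x.val < 5 then ⟨(x.val + k.val) % 5, by omega⟩ else x

/-- base cycle, as a list of pairs (closed) -/
def base : List (Fin 7 × Fin 7) :=
  [(1,3), (3,4), (3,5), (2,5), (0,5), (0,3), (0,6), (3,6), (4,6), (4,5), (1,4), (0,4), (0,2),
   (2,4), (2,6), (5,6), (1,5), (0,1), (1,6), (1,2), (2,3), (1,3)]

/-- make a pair -/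
def mkPr (x y : Fin 7) : Pr 7 :=
  if h : x = y then ⟨{0, 1}, by decide⟩ else ⟨{x, y}, Finset.card_pair h⟩

/-- vertex list of the `k`-th cycle -/
def vl (k : Fin 5) : List (Pr 7) :=
  base.map fun q => mkPr (rot k q.1) (rot k q.2)

/-- edge list of the `k`-th cycle -/
def el (k : Fin 5) : List (Sym2 (Pr 7)) := List.zipWith (s(·, ·)) (vl k) (vl k).tail

theorem vl_ne (k : Fin 5) : vl k ≠ [] := by simp [vl, base]

theorem vl_chain : ∀ k : Fin 5, (vl k).IsChain (flipGraph 7).Adj := by decide +kernel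

theorem vl_tail_nodup : ∀ k : Fin 5, (vl k).tail.Nodup := by decide +kernel

/-- colour of a pair of vertices as a mask -/
def cmask (A B : Pr 7) : ℕ := ∑ x ∈ symmDiff A.1 B.1, 2 ^ x.val

theorem el_colour : ∀ k : Fin 5, ∀ t : Pr 7, ((el k).map (colour 7)).count t.1 = 1 := by
  decide +kernel

theorem el_disj : ∀ i j : Fin 5, i ≠ j → ∀ e ∈ el i, e ∉ el j := by
  decide +kernel

theorem el_cover : ∀ A B : Pr 7, (flipGraph 7).Adj A B → ∃ i, s(A, B) ∈ el i := by
  decide +kernel

theorem el_nodup : ∀ k : Fin 5, (el k).Nodup := by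
  decide +kernel

/-- the `k`-th cycle -/
def cyc (k : Fin 5) : (flipGraph 7).Walk ((vl k).head (vl_ne k)) ((vl k).head (vl_ne k)) :=
  (SimpleGraph.Walk.ofSupport (vl k) (vl_ne k) (vl_chain k)).copy rfl (by
    simp [vl, base])

theorem cyc_edges (k : Fin 5) : (cyc k).edges = el k := by
  unfold cyc el
  rw [SimpleGraph.Walk.edges_copy, SimpleGraph.Walk.edges_eq_zipWith_support,
    SimpleGraph.Walk.support_ofSupport]

theorem cyc_support (k : Fin 5) : (cyc k).support = vl k := by
  unfold cyc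
  rw [SimpleGraph.Walk.support_copy, SimpleGraph.Walk.support_ofSupport]

theorem cyc_rainbow (k : Fin 5) : IsRainbowCycle (cyc k) := by
  constructor
  · rw [SimpleGraph.Walk.isCycle_def]
    refine ⟨⟨?_⟩, ?_, ?_⟩
    · rw [cyc_edges]; exact el_nodup k
    · intro h
      have := congrArg SimpleGraph.Walk.length h
      rw [← SimpleGraph.Walk.length_edges, cyc_edges] at this
      simp [el, vl, base] at this
    · rw [cyc_support]; exact vl_tail_nodup k
  · intro t
    rw [cyc_edges]
    exact el_colour k t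

theorem vl_all : ∀ k : Fin 5, ∀ A : Pr 7, A ∈ vl k := by
  decide +kernel

theorem seven_works : HasRainbowFactorization 7 := by
  refine ⟨fun k => (vl k).head (vl_ne k), fun k => cyc k, ?_, ?_, ?_⟩
  · intro i
    refine ⟨cyc_rainbow i, fun A => ?_⟩
    rw [cyc_support]
    exact vl_all i A
  · intro i j hij e he
    rw [cyc_edges] at he ⊢
    exact el_disj i j hij e he
  · intro e
    refine Sym2.ind (fun A B h => ?_) e
    obtain ⟨i, hi⟩ := el_cover A B h
    exact ⟨i, by rw [cyc_edges]; exact hi⟩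

end Pool.Agent.FB
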